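import Mathlib
import Pool.Agent.H14.Walsh2

set_option autoImplicit false

namespace Pool.Agent.Results.MP_4cdc07_co.NotMax

open Pool.Agent.H14.ApnDefs

theorem result (n : ℕ) (hn : 4 ≤ n) (he : Even n) (F : V n → V n) (hF : APN F) (hP : Plateaued F)
    (p : V n × V n) (hp : p ∉ graph F) : 3 * mult F p < 2 ^ n - 1 := by
  obtain ⟨k, hk⟩ := he
  have := Pool.Agent.H14.Walsh.not_max (k := k) (by omega) (by omega) hF hP p.1 p.2 fun e =>
    hp (Finset.mem_image.2 ⟨p.1, Finset.mem_univ _, Prod.ext rfl e.symm⟩)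
  exact Nat.lt_sub_of_add_lt this

end Pool.Agent.Results.MP_4cdc07_co.NotMax
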